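import Pool.Agent.H297.QL.Gr

/-!
# Free Lie rings on abelian groups, and quadratic presentations
-/

set_option autoImplicit false

open scoped commutatorElement

noncomputable section

namespace Pool.Agent.H297.QL

section free

variable (V : Type) [AddCommGroup V]

/-- the Lie ideal generated by the elements `[v + w] - [v] - [w]` of the free Lie ring on the set
`V` -/
def linIdeal : LieIdeal ℤ (FreeLieAlgebra ℤ V) :=
  LieSubmodule.lieSpan ℤ (FreeLieAlgebra ℤ V)
    {x | ∃ v w : V, x = FreeLieAlgebra.of ℤ (v + w) - FreeLieAlgebra.of ℤ v - FreeLieAlgebra.of ℤ w}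

/-- The free Lie ring `L[V]` on the abelian group `V`. -/
def LV : Type := FreeLieAlgebra ℤ V ⧸ linIdeal V

instance : LieRing (LV V) := LieSubmodule.Quotient.lieQuotientLieRing (linIdeal V)

variable {V}

/-- the canonical map `V → L[V]` -/
def inc (v : V) : LV V :=
  (LieSubmodule.Quotient.mk (FreeLieAlgebra.of ℤ v) : FreeLieAlgebra ℤ V ⧸ linIdeal V)

lemma inc_add (v w : V) : inc (v + w) = inc v + inc w := by
  have h : FreeLieAlgebra.of ℤ (v + w) - FreeLieAlgebra.of ℤ v - FreeLieAlgebra.of ℤ w ∈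
      linIdeal V := LieSubmodule.subset_lieSpan ⟨v, w, rfl⟩
  have h2 := (LieSubmodule.Quotient.mk_eq_zero' (N := linIdeal V)).2 h
  have h3 : inc (v + w) - inc v - inc w = 0 := h2
  rw [sub_sub, sub_eq_zero] at h3
  exact h3

variable {M : Type} [LieRing M]

/-- a homomorphism which vanishes on an ideal -/
def qLift {L : Type} [LieRing L] (I : LieIdeal ℤ L) (f : L →ₗ⁅ℤ⁆ M) (h : ∀ x ∈ I, f x = 0) :
    (L ⧸ I) →ₗ⁅ℤ⁆ M :=
  { (I.toSubmodule.liftQ (f : L →ₗ[ℤ] M) fun x hx => h x hx) with
    map_lie' := by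
      intro x y
      obtain ⟨x, rfl⟩ := LieSubmodule.Quotient.surjective_mk' I x
      obtain ⟨y, rfl⟩ := LieSubmodule.Quotient.surjective_mk' I y
      exact f.map_lie x y }

lemma qLift_mk {L : Type} [LieRing L] (I : LieIdeal ℤ L) (f : L →ₗ⁅ℤ⁆ M) (h : ∀ x ∈ I, f x = 0)
    (x : L) : qLift I f h (LieSubmodule.Quotient.mk x) = f x := rfl

/-- the elements where a homomorphism of Lie rings vanishes -/
def kerI {L : Type} [LieRing L] (g : L → M) (h0 : g 0 = 0) (h1 : ∀ x y, g (x + y) = g x + g y)
    (h2 : ∀ x y, g ⁅x, y⁆ = ⁅g x, g y⁆) : LieIdeal ℤ L where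
  carrier := {x | g x = 0}
  zero_mem' := h0
  add_mem' := fun {x y} hx hy => by
    change g (x + y) = 0
    rw [h1, show g x = 0 from hx, show g y = 0 from hy, add_zero]
  smul_mem' := fun n x hx => by
    change g (n • x) = 0
    have h3 : g (n • x) = n • g x := map_zsmul (AddMonoidHom.mk' g h1) n x
    rw [h3, show g x = 0 from hx, smul_zero]
  lie_mem := fun {x y} hy => by
    change g ⁅x, y⁆ = 0
    rw [h2, show g y = 0 from hy, lie_zero]

lemma mem_kerI {L : Type} [LieRing L] (g : L → M) (h0 : g 0 = 0)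
    (h1 : ∀ x y, g (x + y) = g x + g y) (h2 : ∀ x y, g ⁅x, y⁆ = ⁅g x, g y⁆) (x : L) :
    x ∈ kerI g h0 h1 h2 ↔ g x = 0 := Iff.rfl

/-- the homomorphism from the free Lie ring on a set -/
def flift (f : V → M) : FreeLieAlgebra ℤ V →ₗ⁅ℤ⁆ M where
  toFun := FreeLieAlgebra.lift ℤ f
  map_add' x y := map_add _ x y
  map_smul' n x := by
    have h := map_zsmul (AddMonoidHom.mk' (FreeLieAlgebra.lift ℤ f) (map_add _)) n x
    exact h
  map_lie' := fun {x y} => LieHom.map_lie _ x y

omit [AddCommGroup V] in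
lemma flift_of (f : V → M) (v : V) : flift f (FreeLieAlgebra.of ℤ v) = f v :=
  FreeLieAlgebra.lift_of_apply _ v

lemma flift_lin (f : V →+ M) : ∀ x ∈ linIdeal V, flift f x = 0 := by
  have h : linIdeal V ≤ kerI (flift f) (map_zero _) (map_add _) (LieHom.map_lie _) := by
    refine LieSubmodule.lieSpan_le.2 ?_
    rintro _ ⟨v, w, rfl⟩
    change flift f _ = 0
    rw [map_sub, map_sub, flift_of, flift_of, flift_of, map_add]
    abel
  intro x hx
  exact h hx

/-- the homomorphism from the free Lie ring given by an additive map -/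
def lift (f : V →+ M) : LV V →ₗ⁅ℤ⁆ M where
  toFun := qLift (linIdeal V) (flift f) (flift_lin f)
  map_add' x y := map_add (qLift (linIdeal V) (flift f) (flift_lin f)) x y
  map_smul' n x := map_zsmul (AddMonoidHom.mk' (qLift (linIdeal V) (flift f) (flift_lin f))
    (map_add _)) n x
  map_lie' := fun {x y} => LieHom.map_lie (qLift (linIdeal V) (flift f) (flift_lin f)) x y

lemma lift_inc (f : V →+ M) (v : V) : lift f (inc v) = f v :=
  (qLift_mk _ _ (flift_lin f) _).trans (flift_of _ _)

/-- the additive group generated by the brackets `[v, x]` with `v ∈ V` and `x ∈ N` -/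
def nextk (N : AddSubgroup (LV V)) : AddSubgroup (LV V) :=
  AddSubgroup.closure {x | ∃ v : V, ∃ y ∈ N, x = ⁅inc v, y⁆}

variable (V) in
/-- The homogeneous components of `L[V]`: `L_0 = 0`, `L_1` is the image of `V`, and `L_{k+1}` is
generated by the brackets `[v, x]` with `v ∈ V` and `x ∈ L_k`, for `k ≥ 1`. -/
def Lk : ℕ → AddSubgroup (LV V)
  | 0 => ⊥
  | k + 1 => nextk^[k] (AddSubgroup.closure (Set.range inc))

end free

section quo

variable {V : Type} [AddCommGroup V]

/-- the Lie ideal of `L[V]` generated by a set -/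
def idl (S : Set (LV V)) : LieIdeal ℤ (LV V) := LieSubmodule.lieSpan ℤ (LV V) S

/-- the quotient of `L[V]` by the Lie ideal generated by `S` -/
def Quo (S : Set (LV V)) : Type := LV V ⧸ idl S

instance (S : Set (LV V)) : LieRing (Quo S) := LieSubmodule.Quotient.lieQuotientLieRing (idl S)

/-- the projection -/
def toQ (S : Set (LV V)) (x : LV V) : Quo S := (LieSubmodule.Quotient.mk x : LV V ⧸ idl S)

/-- A map from `L[V]/(S)` to `E_0^*(G)` is graded: an element lies in the component of degree `k`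
of `L[V]/(S)` if and only if its image lies in `E_0^k(G)`. -/
def IsGraded {G : Type} [Group G] {S : Set (LV V)} (f : Quo S → E G) : Prop :=
  ∀ (k : ℕ) (x : Quo S), (∃ y ∈ Lk V k, toQ S y = x) ↔ ∃ a : Gr G k, f x = comp k a

/-- An isomorphism of graded Lie rings from `L[V]/(S)` to `E_0^*(G)`: an isomorphism of abelian
groups which preserves the bracket and the degrees. -/
structure IsIso {G : Type} [Group G] {S : Set (LV V)} (f : Quo S ≃+ E G) : Prop where
  lie : ∀ x y : Quo S, f ⁅x, y⁆ = ⁅f x, f y⁆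
  graded : IsGraded f

end quo

/-- The lower central series Lie ring `E_0^*(G)` is a free Lie algebra modulo quadratic relations:
it is isomorphic, as a graded Lie ring, to the quotient of the free Lie ring `L[V]` on the abelian
group `V = G/[G,G] = E_0^1(G)` by the ideal generated by a set `S` of elements of `L_2[V]`. -/
def IsQuadratic (G : Type) [Group G] : Prop :=
  ∃ S : Set (LV (Gr G 1)), S ⊆ Lk (Gr G 1) 2 ∧ ∃ f : Quo S ≃+ E G, IsIso f

/-- The natural homomorphism `L[V] → E_0^*(G)`, the identity on `V = E_0^1(G)`. -/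
def nat (G : Type) [Group G] : LV (Gr G 1) →ₗ⁅ℤ⁆ E G := lift (comp 1)

lemma nat_inc {G : Type} [Group G] (v : Gr G 1) : nat G (inc v) = comp 1 v := lift_inc _ v

end Pool.Agent.H297.QL
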