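import Mathlib

/-!
# The Lie ring of the lower central series of a group
-/

set_option autoImplicit false

open scoped commutatorElement

noncomputable section

namespace Pool.Agent.H297.QL

section gam

variable (G : Type) [Group G]

/-- The lower central series of `G`: `Γ_1 = G` and `Γ_{k+1} = [Γ_k, G]`; by convention
`Γ_0 = G`. -/
def gam : ℕ → Subgroup G
  | 0 => ⊤
  | k + 1 => (⊤ : Subgroup G).lowerCentralSeries k

variable {G}

lemma gam_one : gam G 1 = ⊤ := rfl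

lemma gam_add_two (k : ℕ) : gam G (k + 2) = ⁅gam G (k + 1), (⊤ : Subgroup G)⁆ := rfl

instance gam_normal (k : ℕ) : (gam G k).Normal := by
  rcases k with _ | k
  · exact inferInstanceAs (⊤ : Subgroup G).Normal
  · have : ((⊤ : Subgroup G).lowerCentralSeries k).Characteristic :=
      Subgroup.lowerCentralSeries_characteristic _ k
    exact inferInstanceAs ((⊤ : Subgroup G).lowerCentralSeries k).Normal

lemma gam_succ_le (k : ℕ) : gam G (k + 1) ≤ gam G k := by
  rcases k with _ | k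
  · exact le_top
  · exact Subgroup.lowerCentralSeries_antitone _ (Nat.le_succ k)

lemma gam_anti {m n : ℕ} (h : m ≤ n) : gam G n ≤ gam G m :=
  antitone_nat_of_succ_le (fun k => gam_succ_le k) h

lemma comm_succ {k : ℕ} {x : G} (hx : x ∈ gam G k) (y : G) : ⁅x, y⁆ ∈ gam G (k + 1) := by
  rcases k with _ | k
  · exact Subgroup.mem_top _
  · exact Subgroup.commutator_mem_commutator hx (Subgroup.mem_top y)

lemma comm_succ' {k : ℕ} {y : G} (hy : y ∈ gam G k) (x : G) : ⁅x, y⁆ ∈ gam G (k + 1) := by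
  rw [← commutatorElement_inv]
  exact Subgroup.inv_mem _ (comm_succ hy x)

/-- the elements of `Γ_k` are central modulo `Γ_{k+1}` -/
lemma central {k : ℕ} {x : G} (hx : x ∈ gam G k) (y : G ⧸ gam G (k + 1)) :
    Commute (x : G ⧸ gam G (k + 1)) y := by
  obtain ⟨y, rfl⟩ := QuotientGroup.mk_surjective y
  rw [commute_iff_eq, ← commutatorElement_eq_one_iff_mul_comm]
  have h : ((⁅x, y⁆ : G) : G ⧸ gam G (k + 1)) = 1 := (QuotientGroup.eq_one_iff _).2 (comm_succ hx y)
  rw [← h]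
  rfl

lemma comm_le (i j : ℕ) : ⁅gam G i, gam G j⁆ ≤ gam G (i + j) := by
  induction i generalizing j with
  | zero =>
    rw [zero_add]
    exact Subgroup.commutator_le_right _ _
  | succ i ih =>
    rcases i with _ | i
    · rw [Subgroup.commutator_le]
      intro x _ y hy
      have := comm_succ' hy x
      rwa [zero_add, add_comm]
    · have h3 : ⁅⁅gam G (i + 1), (⊤ : Subgroup G)⁆, gam G j⁆ ≤ gam G (i + 1 + 1 + j) := by
        have hN : (gam G (i + 1 + 1 + j)).Normal := inferInstance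
        let q := QuotientGroup.mk' (gam G (i + 1 + 1 + j))
        have hq : ∀ H : Subgroup G, H ≤ gam G (i + 1 + 1 + j) ↔ H.map q = ⊥ := by
          intro H
          rw [Subgroup.map_eq_bot_iff, QuotientGroup.ker_mk']
        rw [hq, Subgroup.map_commutator, Subgroup.map_commutator]
        apply Subgroup.commutator_commutator_eq_bot_of_rotate
        · rw [← Subgroup.map_commutator, ← Subgroup.map_commutator, ← hq,
            Subgroup.commutator_comm]
          have h1 : ⁅(⊤ : Subgroup G), gam G j⁆ ≤ gam G (1 + j) := by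
            rw [Subgroup.commutator_le]
            intro x _ y hy
            have := comm_succ' hy x
            rwa [add_comm]
          have h2 : ⁅gam G (i + 1), ⁅(⊤ : Subgroup G), gam G j⁆⁆ ≤ ⁅gam G (i + 1), gam G (1 + j)⁆ :=
            Subgroup.commutator_mono le_rfl h1
          refine h2.trans ((ih (1 + j)).trans (gam_anti (by omega)))
        · rw [← Subgroup.map_commutator, ← Subgroup.map_commutator, ← hq]
          have h1 : ⁅gam G j, gam G (i + 1)⁆ ≤ gam G (i + 1 + j) := by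
            rw [Subgroup.commutator_comm]
            exact ih j
          refine (Subgroup.commutator_mono h1 le_rfl).trans ?_
          rw [Subgroup.commutator_le]
          intro x hx y _
          have := comm_succ hx y
          exact gam_anti (by omega) this
      exact h3

lemma comm_mem {i j : ℕ} {x y : G} (hx : x ∈ gam G i) (hy : y ∈ gam G j) :
    ⁅x, y⁆ ∈ gam G (i + j) := comm_le i j (Subgroup.commutator_mem_commutator hx hy)

end gam

section gr

variable (G : Type) [Group G]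

/-- The quotient `Γ_k / Γ_{k+1}`, written multiplicatively. -/
def GrM (k : ℕ) : Type := gam G k ⧸ (gam G (k + 1)).subgroupOf (gam G k)

instance (k : ℕ) : Group (GrM G k) :=
  QuotientGroup.Quotient.group ((gam G (k + 1)).subgroupOf (gam G k))

instance (k : ℕ) : CommGroup (GrM G k) where
  mul_comm := by
    intro a b
    obtain ⟨x, rfl⟩ := QuotientGroup.mk_surjective a
    obtain ⟨y, rfl⟩ := QuotientGroup.mk_surjective b
    change ((x * y : gam G k) : gam G k ⧸ (gam G (k + 1)).subgroupOf (gam G k)) =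
      ((y * x : gam G k) : gam G k ⧸ (gam G (k + 1)).subgroupOf (gam G k))
    rw [QuotientGroup.eq, Subgroup.mem_subgroupOf]
    have h := comm_succ (Subgroup.inv_mem _ y.2) (x : G)⁻¹
    have e : (((x * y)⁻¹ * (y * x) : gam G k) : G) = ⁅(y : G)⁻¹, (x : G)⁻¹⁆ := by
      rw [commutatorElement_def]
      push_cast
      group
    rw [e]
    exact h

/-- The homogeneous component `E_0^k(G) = Γ_k / Γ_{k+1}`, written additively (the component of
degree `0` is trivial). -/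
def Gr (k : ℕ) : Type := Additive (GrM G k)

instance (k : ℕ) : AddCommGroup (Gr G k) := Additive.addCommGroup

variable {G}

/-- the class of an element of `Γ_k` -/
def cl (k : ℕ) (g : G) (hg : g ∈ gam G k) : Gr G k :=
  Additive.ofMul ((⟨g, hg⟩ : gam G k) : gam G k ⧸ (gam G (k + 1)).subgroupOf (gam G k))

lemma exists_cl {k : ℕ} (a : Gr G k) : ∃ (g : G) (hg : g ∈ gam G k), a = cl k g hg := by
  obtain ⟨x, hx⟩ := QuotientGroup.mk_surjective (Additive.toMul a)
  exact ⟨x.1, x.2, hx.symm⟩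

lemma cl_eq_iff {k : ℕ} {g h : G} (hg : g ∈ gam G k) (hh : h ∈ gam G k) :
    cl k g hg = cl k h hh ↔ (g : G ⧸ gam G (k + 1)) = h := by
  have h1 : cl k g hg = cl k h hh ↔
      ((⟨g, hg⟩ : gam G k) : gam G k ⧸ (gam G (k + 1)).subgroupOf (gam G k)) =
        ((⟨h, hh⟩ : gam G k) : gam G k ⧸ (gam G (k + 1)).subgroupOf (gam G k)) := Iff.rfl
  rw [h1, QuotientGroup.eq, QuotientGroup.eq, Subgroup.mem_subgroupOf]
  rfl

lemma cl_add {k : ℕ} {g h : G} (hg : g ∈ gam G k) (hh : h ∈ gam G k) :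
    cl k g hg + cl k h hh = cl k (g * h) (Subgroup.mul_mem _ hg hh) := rfl

lemma cl_zero {k : ℕ} {g : G} (hg : g ∈ gam G (k + 1)) :
    cl k g (gam_succ_le k hg) = 0 := by
  have h0 : (0 : Gr G k) = cl k 1 (Subgroup.one_mem _) := rfl
  rw [h0, cl_eq_iff, (QuotientGroup.eq_one_iff g).2 hg]
  rfl

lemma cl_zero' {k : ℕ} {g : G} (hg : g ∈ gam G k) (h : g ∈ gam G (k + 1)) : cl k g hg = 0 :=
  cl_zero h

lemma cl_congr {k : ℕ} {g h : G} (e : g = h) (hg : g ∈ gam G k) (hh : h ∈ gam G k) :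
    cl k g hg = cl k h hh := by
  subst e
  rfl

/-- commutators in a group -/
lemma brk_left {Q : Type} [Group Q] {X U Y : Q} (h : Commute U Y) : ⁅X * U, Y⁆ = ⁅X, Y⁆ := by
  rw [commutatorElement_def, commutatorElement_def, mul_inv_rev]
  have := h.eq
  calc X * U * Y * (U⁻¹ * X⁻¹) * Y⁻¹ = X * (U * Y) * U⁻¹ * X⁻¹ * Y⁻¹ := by group
    _ = X * Y * X⁻¹ * Y⁻¹ := by rw [this]; group

lemma brk_right {Q : Type} [Group Q] {X U Y : Q} (h : Commute U X) : ⁅X, Y * U⁆ = ⁅X, Y⁆ := by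
  rw [← commutatorElement_inv, brk_left h, commutatorElement_inv]

lemma brk_mul_left {Q : Type} [Group Q] {X X' Y : Q} (h : Commute X ⁅X', Y⁆) :
    ⁅X * X', Y⁆ = ⁅X', Y⁆ * ⁅X, Y⁆ := by
  have e : ⁅X * X', Y⁆ = (X * ⁅X', Y⁆) * X⁻¹ * ⁅X, Y⁆ := by
    simp only [commutatorElement_def]
    group
  rw [e, h.eq]
  group

lemma brk_mul_right {Q : Type} [Group Q] {X Y Y' : Q} (h : Commute Y ⁅X, Y'⁆) :
    ⁅X, Y * Y'⁆ = ⁅X, Y⁆ * ⁅X, Y'⁆ := by
  have e : ⁅X, Y * Y'⁆ = ⁅X, Y⁆ * ((Y * ⁅X, Y'⁆) * Y⁻¹) := by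
    simp only [commutatorElement_def]
    group
  rw [e, h.eq]
  group

/-- the class of the commutator of an element of `Γ_i` and an element of `Γ_j` in `E_0^{i+j}(G)` -/
def cbr {i j : ℕ} (x : gam G i) (y : gam G j) : Gr G (i + j) :=
  cl (i + j) ⁅(x : G), (y : G)⁆ (comm_mem x.2 y.2)

lemma cbr_congr {i j : ℕ} (x : gam G i) (y : gam G j) (x' : gam G i) (y' : gam G j)
    (hx : QuotientGroup.leftRel ((gam G (i + 1)).subgroupOf (gam G i)) x x')
    (hy : QuotientGroup.leftRel ((gam G (j + 1)).subgroupOf (gam G j)) y y') :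
    cbr x y = cbr x' y' := by
  rw [QuotientGroup.leftRel_apply, Subgroup.mem_subgroupOf] at hx hy
  unfold cbr
  rw [cl_eq_iff]
  have e1 : (x' : G) = x * ((x⁻¹ * x' : gam G i) : G) := by push_cast; group
  have e2 : (y' : G) = y * ((y⁻¹ * y' : gam G j) : G) := by push_cast; group
  rw [e1, e2]
  generalize ((x⁻¹ * x' : gam G i) : G) = u at hx ⊢
  generalize ((y⁻¹ * y' : gam G j) : G) = v at hy ⊢
  have hX : ((⁅(x : G) * u, (y : G) * v⁆ : G) : G ⧸ gam G (i + j + 1)) =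
    ⁅((x : G) : G ⧸ gam G (i + j + 1)) * (u : G ⧸ gam G (i + j + 1)),
      ((y : G) : G ⧸ gam G (i + j + 1)) * (v : G ⧸ gam G (i + j + 1))⁆ := rfl
  have hc : ∀ a b : G, ⁅a, b⁆ ∈ gam G (i + j + 1) →
      Commute (a : G ⧸ gam G (i + j + 1)) (b : G ⧸ gam G (i + j + 1)) := by
    intro a b hab
    rw [commute_iff_eq, ← commutatorElement_eq_one_iff_mul_comm]
    exact (QuotientGroup.eq_one_iff _).2 hab
  rw [hX, brk_left, brk_right]
  · rfl
  · refine hc v x ?_
    rw [← commutatorElement_inv]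
    refine Subgroup.inv_mem _ ?_
    have := comm_mem x.2 hy
    exact this
  · have h1 : ((y : G) : G ⧸ gam G (i + j + 1)) * (v : G ⧸ gam G (i + j + 1)) =
      ((y * v : G) : G ⧸ gam G (i + j + 1)) := rfl
    rw [h1]
    refine hc u (y * v) ?_
    have h2 : (y : G) * v ∈ gam G j := Subgroup.mul_mem _ y.2 (gam_succ_le j hy)
    have := comm_mem hx h2
    exact gam_anti (by omega) this

lemma exists_rep {k : ℕ} (a : Gr G k) : ∃ x : gam G k, cl k (x : G) x.2 = a := by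
  obtain ⟨g, hg, h⟩ := exists_cl a
  exact ⟨⟨g, hg⟩, h.symm⟩

/-- a representative of a class -/
def rep {k : ℕ} (a : Gr G k) : gam G k := (exists_rep a).choose

lemma rep_cl {k : ℕ} {g : G} (hg : g ∈ gam G k) :
    QuotientGroup.leftRel ((gam G (k + 1)).subgroupOf (gam G k)) (rep (cl k g hg)) ⟨g, hg⟩ := by
  have h : cl k (rep (cl k g hg) : G) (rep (cl k g hg)).2 = cl k g hg :=
    (exists_rep _).choose_spec
  have h2 : (((rep (cl k g hg)) : gam G k) : gam G k ⧸ (gam G (k + 1)).subgroupOf (gam G k)) =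
    ((⟨g, hg⟩ : gam G k) : gam G k ⧸ (gam G (k + 1)).subgroupOf (gam G k)) := h
  exact Quotient.exact h2

/-- The bracket `E_0^i(G) × E_0^j(G) → E_0^{i+j}(G)`: the class of the commutator
`⁅x, y⁆ = x y x⁻¹ y⁻¹` of representatives `x` and `y`; it does not depend on the representatives, by
`cbr_congr`. -/
def gbr {i j : ℕ} (a : Gr G i) (b : Gr G j) : Gr G (i + j) := cbr (rep a) (rep b)

lemma gbr_cl {i j : ℕ} {x y : G} (hx : x ∈ gam G i) (hy : y ∈ gam G j) :
    gbr (cl i x hx) (cl j y hy) = cl (i + j) ⁅x, y⁆ (comm_mem hx hy) :=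
  cbr_congr _ _ ⟨x, hx⟩ ⟨y, hy⟩ (rep_cl hx) (rep_cl hy)

lemma gbr_add_left {i j : ℕ} (a b : Gr G i) (c : Gr G j) :
    gbr (a + b) c = gbr a c + gbr b c := by
  obtain ⟨x, hx, rfl⟩ := exists_cl a
  obtain ⟨x', hx', rfl⟩ := exists_cl b
  obtain ⟨y, hy, rfl⟩ := exists_cl c
  rw [cl_add, gbr_cl, gbr_cl, gbr_cl, add_comm (cl (i + j) ⁅x, y⁆ _), cl_add, cl_eq_iff]
  exact brk_mul_left (Q := G ⧸ gam G (i + j + 1)) (X := (x : G ⧸ gam G (i + j + 1)))
    (X' := (x' : G ⧸ gam G (i + j + 1))) (Y := (y : G ⧸ gam G (i + j + 1)))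
    (central (comm_mem hx' hy) _).symm

lemma gbr_add_right {i j : ℕ} (a : Gr G i) (b c : Gr G j) :
    gbr a (b + c) = gbr a b + gbr a c := by
  obtain ⟨x, hx, rfl⟩ := exists_cl a
  obtain ⟨y, hy, rfl⟩ := exists_cl b
  obtain ⟨y', hy', rfl⟩ := exists_cl c
  rw [cl_add, gbr_cl, gbr_cl, gbr_cl, cl_add, cl_eq_iff]
  exact brk_mul_right (Q := G ⧸ gam G (i + j + 1)) (X := (x : G ⧸ gam G (i + j + 1)))
    (Y := (y : G ⧸ gam G (i + j + 1))) (Y' := (y' : G ⧸ gam G (i + j + 1)))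
    (central (comm_mem hx hy') _).symm

lemma gr_zero (a : Gr G 0) : a = 0 := by
  obtain ⟨x, hx, rfl⟩ := exists_cl a
  exact cl_zero' hx (Subgroup.mem_top x)

lemma gbr_zero_left {i j : ℕ} (b : Gr G j) : gbr (0 : Gr G i) b = 0 := by
  have h := gbr_add_left (0 : Gr G i) 0 b
  rw [add_zero] at h
  exact left_eq_add.mp h

lemma gbr_zero_right {i j : ℕ} (a : Gr G i) : gbr a (0 : Gr G j) = 0 := by
  have h := gbr_add_right a (0 : Gr G j) 0
  rw [add_zero] at h
  exact left_eq_add.mp h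

instance : DirectSum.GNonUnitalNonAssocSemiring (Gr G) where
  mul a b := gbr a b
  mul_zero a := gbr_zero_right a
  zero_mul b := gbr_zero_left b
  mul_add a b c := gbr_add_right a b c
  add_mul a b c := gbr_add_left a b c

variable (G) in
/-- The graded Lie ring `E_0^*(G) = ⨁_k Γ_k / Γ_{k+1}` of the lower central series of `G`. -/
def E : Type := DirectSum ℕ (Gr G)

instance : AddCommGroup (E G) := DirectSum.instAddCommGroup

/-- the inclusion of the component of degree `k` -/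
def comp (k : ℕ) : Gr G k →+ E G := DirectSum.of (Gr G) k

/-- the bracket as a bilinear map -/
def brE : E G →+ E G →+ E G := DirectSum.mulHom (Gr G)

lemma brE_comp {i j : ℕ} (a : Gr G i) (b : Gr G j) :
    brE (comp i a) (comp j b) = comp (i + j) (gbr a b) :=
  DirectSum.mulHom_of_of a b

lemma E_ind {p : E G → Prop} (h0 : p 0) (hc : ∀ (k : ℕ) (a : Gr G k), p (comp k a))
    (ha : ∀ x y, p x → p y → p (x + y)) (x : E G) : p x :=
  DirectSum.induction_on x h0 hc ha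

/-- homogeneous elements given by elements of the group -/
def hc (k : ℕ) (g : G) (hg : g ∈ gam G k) : E G := comp k (cl k g hg)

lemma hc_add {k : ℕ} {g h : G} (hg : g ∈ gam G k) (hh : h ∈ gam G k) :
    hc k g hg + hc k h hh = hc k (g * h) (Subgroup.mul_mem _ hg hh) := by
  unfold hc
  rw [← map_add, cl_add]

lemma hc_eq {k l : ℕ} (e : k = l) {g h : G} (hg : g ∈ gam G k) (hh : h ∈ gam G l)
    (heq : (g : G ⧸ gam G (l + 1)) = h) : hc k g hg = hc l h hh := by
  subst e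
  unfold hc
  rw [(cl_eq_iff hg hh).2 heq]

lemma hc_zero {k : ℕ} {g : G} (hg : g ∈ gam G k) (h : g ∈ gam G (k + 1)) : hc k g hg = 0 := by
  unfold hc
  rw [cl_zero' hg h, map_zero]

lemma E_ind' {p : E G → Prop} (h0 : p 0)
    (hcl : ∀ (k : ℕ), 1 ≤ k → ∀ (g : G) (hg : g ∈ gam G k), p (hc k g hg))
    (ha : ∀ x y, p x → p y → p (x + y)) (x : E G) : p x := by
  refine E_ind h0 (fun k a => ?_) ha x
  rcases k with _ | k
  · rw [gr_zero a, map_zero]
    exact h0
  · obtain ⟨g, hg, rfl⟩ := exists_cl a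
    exact hcl (k + 1) (by omega) g hg

lemma brE_hc {i j : ℕ} {x y : G} (hx : x ∈ gam G i) (hy : y ∈ gam G j) :
    brE (hc i x hx) (hc j y hy) = hc (i + j) ⁅x, y⁆ (comm_mem hx hy) := by
  unfold hc
  rw [brE_comp, gbr_cl]

lemma brE_skew (x y : E G) : brE x y + brE y x = 0 := by
  refine E_ind' (p := fun x => brE x y + brE y x = 0) (by simp) (fun i _ g hg => ?_)
    (fun a b ha hb => ?_) x
  · refine E_ind' (p := fun y => brE (hc i g hg) y + brE y (hc i g hg) = 0) (by simp)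
      (fun j _ h hh => ?_) (fun a b ha hb => ?_) y
    · rw [brE_hc, brE_hc]
      have h1 : hc (j + i) ⁅h, g⁆ (comm_mem hh hg) =
          hc (i + j) ⁅h, g⁆ (by rw [add_comm]; exact comm_mem hh hg) :=
        hc_eq (add_comm j i) _ _ rfl
      rw [h1, hc_add]
      have h2 : ⁅g, h⁆ * ⁅h, g⁆ = 1 := by
        rw [← commutatorElement_inv g h, mul_inv_cancel]
      exact hc_zero _ (by rw [h2]; exact Subgroup.one_mem _)
    · rw [map_add, map_add, AddMonoidHom.add_apply]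
      rw [add_add_add_comm, ha, hb, add_zero]
  · rw [map_add, map_add, AddMonoidHom.add_apply]
    rw [add_add_add_comm, ha, hb, add_zero]

lemma brE_self (x : E G) : brE x x = 0 := by
  refine E_ind' (p := fun x => brE x x = 0) (by simp) (fun i _ g hg => ?_)
    (fun a b ha hb => ?_) x
  · rw [brE_hc]
    exact hc_zero _ (by rw [commutatorElement_self]; exact Subgroup.one_mem _)
  · rw [map_add, map_add, AddMonoidHom.add_apply, AddMonoidHom.add_apply, ha, hb,
      zero_add, add_zero, add_comm, brE_skew]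

/-- the identity behind the Jacobi identity -/
lemma hall {Q : Type} [Group Q] (X Y Z : Q) (h1 : Commute ⁅X, Y⁆ ⁅X, Z⁆)
    (h2 : ∀ q, Commute ⁅Y, ⁅X, Z⁆⁆ q) (h3 : ∀ q, Commute ⁅⁅X, Y⁆, Z⁆ q)
    (h4 : Commute ⁅X, Z⁆ ⁅Y, Z⁆) (h5 : Commute ⁅X, Y⁆ ⁅Y, Z⁆) :
    ⁅X, ⁅Y, Z⁆⁆ = ⁅⁅X, Y⁆, Z⁆ * ⁅Y, ⁅X, Z⁆⁆ := by
  have e1 : ⁅X, ⁅Y, Z⁆⁆ = ⁅⁅X, Y⁆ * Y, ⁅X, Z⁆ * Z⁆ * ⁅Y, Z⁆⁻¹ := by
    simp only [commutatorElement_def]
    group
  have e2 : ⁅⁅X, Y⁆ * Y, ⁅X, Z⁆ * Z⁆ =
      ⁅X, Y⁆ * ⁅Y, ⁅X, Z⁆ * Z⁆ * ⁅X, Y⁆⁻¹ * ⁅⁅X, Y⁆, ⁅X, Z⁆ * Z⁆ := by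
    generalize ⁅X, Y⁆ = A
    generalize ⁅X, Z⁆ = B
    simp only [commutatorElement_def]
    group
  have e3 : ⁅Y, ⁅X, Z⁆ * Z⁆ = ⁅Y, ⁅X, Z⁆⁆ * ⁅Y, Z⁆ := by
    have : ⁅Y, ⁅X, Z⁆ * Z⁆ = ⁅Y, ⁅X, Z⁆⁆ * (⁅X, Z⁆ * ⁅Y, Z⁆ * ⁅X, Z⁆⁻¹) := by
      generalize ⁅X, Z⁆ = B
      simp only [commutatorElement_def]
      group
    rw [this, h4.eq]
    group
  have e4 : ⁅⁅X, Y⁆, ⁅X, Z⁆ * Z⁆ = ⁅⁅X, Y⁆, Z⁆ := by
    have : ⁅⁅X, Y⁆, ⁅X, Z⁆ * Z⁆ = ⁅⁅X, Y⁆, ⁅X, Z⁆⁆ * (⁅X, Z⁆ * ⁅⁅X, Y⁆, Z⁆ * ⁅X, Z⁆⁻¹) := by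
      generalize ⁅X, Z⁆ = B
      generalize ⁅X, Y⁆ = A
      simp only [commutatorElement_def]
      group
    rw [this, commutatorElement_eq_one_iff_mul_comm.2 h1.eq, one_mul, ← (h3 ⁅X, Z⁆).eq]
    group
  have e5 : ⁅X, Y⁆ * (⁅Y, ⁅X, Z⁆⁆ * ⁅Y, Z⁆) * ⁅X, Y⁆⁻¹ = ⁅Y, ⁅X, Z⁆⁆ * ⁅Y, Z⁆ := by
    have : Commute ⁅X, Y⁆ (⁅Y, ⁅X, Z⁆⁆ * ⁅Y, Z⁆) := ((h2 _).symm).mul_right h5
    rw [this.eq, mul_inv_cancel_right]
  rw [e1, e2, e3, e4, e5, ← (h3 _).eq]
  rw [mul_assoc, mul_assoc, mul_inv_cancel, mul_one]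

lemma brE_jacobi (x y z : E G) : brE x (brE y z) = brE (brE x y) z + brE y (brE x z) := by
  refine E_ind' (p := fun x => brE x (brE y z) = brE (brE x y) z + brE y (brE x z)) (by simp)
    (fun i hi a ha => ?_) (fun a b ha hb => ?_) x
  · refine E_ind' (p := fun y => brE (hc i a ha) (brE y z) =
      brE (brE (hc i a ha) y) z + brE y (brE (hc i a ha) z)) (by simp)
      (fun j hj b hb => ?_) (fun a b ha hb => ?_) y
    · refine E_ind' (p := fun z => brE (hc i a ha) (brE (hc j b hb) z) =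
        brE (brE (hc i a ha) (hc j b hb)) z + brE (hc j b hb) (brE (hc i a ha) z)) (by simp)
        (fun k hk c hc' => ?_) (fun a b ha hb => ?_) z
      · rw [brE_hc, brE_hc, brE_hc, brE_hc, brE_hc, brE_hc]
        have m1 := comm_mem ha (comm_mem hb hc')
        have m2 := comm_mem (comm_mem ha hb) hc'
        have m3 := comm_mem hb (comm_mem ha hc')
        have n1 : i + (j + k) = i + j + k := by ring
        have n3 : j + (i + k) = i + j + k := by ring
        have m1' := m1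
        rw [n1] at m1'
        have m3' := m3
        rw [n3] at m3'
        rw [hc_eq n1 m1 m1' rfl, hc_eq n3 m3 m3' rfl, hc_add]
        refine hc_eq rfl _ _ ?_
        have hcm : ∀ {s t : ℕ} {u v : G}, u ∈ gam G s → v ∈ gam G t → i + j + k + 1 ≤ s + t →
            Commute (u : G ⧸ gam G (i + j + k + 1)) (v : G ⧸ gam G (i + j + k + 1)) := by
          intro s t u v hu hv hst
          rw [commute_iff_eq, ← commutatorElement_eq_one_iff_mul_comm]
          exact (QuotientGroup.eq_one_iff _).2 (gam_anti hst (comm_mem hu hv))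
        exact hall (Q := G ⧸ gam G (i + j + k + 1)) (a : G ⧸ gam G (i + j + k + 1))
          (b : G ⧸ gam G (i + j + k + 1)) (c : G ⧸ gam G (i + j + k + 1))
          (hcm (comm_mem ha hb) (comm_mem ha hc') (by omega))
          (central m3') (central m2)
          (hcm (comm_mem ha hc') (comm_mem hb hc') (by omega))
          (hcm (comm_mem ha hb) (comm_mem hb hc') (by omega))
      · simp only [map_add, AddMonoidHom.add_apply, ha, hb]
        abel
    · simp only [map_add, AddMonoidHom.add_apply, ha, hb]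
      abel
  · simp only [map_add, AddMonoidHom.add_apply, ha, hb]
    abel

/-- The Lie bracket of `E_0^*(G)`: the product on `⨁_k E_0^k(G)` given by `gbr` on homogeneous
elements. -/
def bkE (x y : E G) : E G := @Mul.mul (DirectSum ℕ (Gr G)) _ x y

lemma bkE_eq (x y : E G) : bkE x y = brE x y := rfl

lemma bkE_add_left (x y z : E G) : bkE (x + y) z = bkE x z + bkE y z := by
  rw [bkE_eq, bkE_eq, bkE_eq, map_add, AddMonoidHom.add_apply]

lemma bkE_add_right (x y z : E G) : bkE x (y + z) = bkE x y + bkE x z := map_add (brE x) y z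

lemma bkE_self (x : E G) : bkE x x = 0 := brE_self x

lemma bkE_jacobi (x y z : E G) : bkE x (bkE y z) = bkE (bkE x y) z + bkE y (bkE x z) :=
  brE_jacobi x y z

instance : Bracket (E G) (E G) := ⟨bkE⟩

instance : LieRing (E G) where
  add_lie := bkE_add_left
  lie_add := bkE_add_right
  lie_self := bkE_self
  leibniz_lie := bkE_jacobi

lemma lie_def (x y : E G) : ⁅x, y⁆ = brE x y := rfl

lemma lie_hc {i j : ℕ} {x y : G} (hx : x ∈ gam G i) (hy : y ∈ gam G j) :
    ⁅hc i x hx, hc j y hy⁆ = hc (i + j) ⁅x, y⁆ (comm_mem hx hy) := brE_hc hx hy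

end gr

end Pool.Agent.H297.QL
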