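import Pool.Agent.H297.QL.Free

/-!
# The group `IA_n`, and a homomorphism from `IA_3` to a nilpotent group
-/

set_option autoImplicit false

open scoped commutatorElement

noncomputable section

namespace Pool.Agent.H297.QL

/-- `IA_n`: the automorphisms of the free group `F_n` which induce the identity on
`F_n/[F_n,F_n]`. -/
def IA (n : ℕ) : Subgroup (MulAut (FreeGroup (Fin n))) where
  carrier := {g | ∀ x, Abelianization.of (g x) = Abelianization.of x}
  one_mem' := fun _ => rfl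
  mul_mem' := fun {a b} ha hb x => by
    change Abelianization.of (a (b x)) = Abelianization.of x
    rw [ha, hb]
  inv_mem' := fun {a} ha x => by
    have h := ha (a⁻¹ x)
    rw [MulAut.apply_inv_self] at h
    exact h.symm

lemma mem_IA {n : ℕ} {g : MulAut (FreeGroup (Fin n))} :
    g ∈ IA n ↔ ∀ x, Abelianization.of (g x) = Abelianization.of x := Iff.rfl

/-- membership can be checked on the generators -/
lemma mem_IA' {n : ℕ} {g : MulAut (FreeGroup (Fin n))}
    (h : ∀ i, Abelianization.of (g (FreeGroup.of i)) = Abelianization.of (FreeGroup.of i)) :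
    g ∈ IA n := by
  have h1 : (Abelianization.of).comp g.toMonoidHom =
      (Abelianization.of : FreeGroup (Fin n) →* _) := FreeGroup.ext_hom _ _ h
  intro x
  exact DFunLike.congr_fun h1 x

/-! ### A quotient of the free group of rank `3` -/

/-- the coefficients of `X₁, X₂, X₃, X₁X₁, X₁X₂, X₁X₃, X₁X₁X₂` in the Magnus expansion -/
@[ext] structure P where
  /-- coefficient of `X₁` -/
  u1 : ℤ
  /-- coefficient of `X₂` -/
  u2 : ℤ
  /-- coefficient of `X₃` -/
  u3 : ℤ
  /-- coefficient of `X₁X₁` -/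
  u11 : ℤ
  /-- coefficient of `X₁X₂` -/
  u12 : ℤ
  /-- coefficient of `X₁X₃` -/
  u13 : ℤ
  /-- coefficient of `X₁X₁X₂` -/
  u112 : ℤ

namespace P

instance : Mul P := ⟨fun a b => ⟨a.u1 + b.u1, a.u2 + b.u2, a.u3 + b.u3,
  a.u11 + b.u11 + a.u1 * b.u1, a.u12 + b.u12 + a.u1 * b.u2, a.u13 + b.u13 + a.u1 * b.u3,
  a.u112 + b.u112 + a.u11 * b.u2 + a.u1 * b.u12⟩⟩

instance : One P := ⟨⟨0, 0, 0, 0, 0, 0, 0⟩⟩

instance : Inv P := ⟨fun a => ⟨-a.u1, -a.u2, -a.u3, -a.u11 + a.u1 * a.u1, -a.u12 + a.u1 * a.u2,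
  -a.u13 + a.u1 * a.u3, -a.u112 + a.u11 * a.u2 + a.u1 * a.u12 - a.u1 * a.u1 * a.u2⟩⟩

lemma mul_def (a b : P) : a * b = ⟨a.u1 + b.u1, a.u2 + b.u2, a.u3 + b.u3,
  a.u11 + b.u11 + a.u1 * b.u1, a.u12 + b.u12 + a.u1 * b.u2, a.u13 + b.u13 + a.u1 * b.u3,
  a.u112 + b.u112 + a.u11 * b.u2 + a.u1 * b.u12⟩ := rfl

lemma one_def : (1 : P) = ⟨0, 0, 0, 0, 0, 0, 0⟩ := rfl

lemma inv_def (a : P) : a⁻¹ = ⟨-a.u1, -a.u2, -a.u3, -a.u11 + a.u1 * a.u1,
  -a.u12 + a.u1 * a.u2, -a.u13 + a.u1 * a.u3,
  -a.u112 + a.u11 * a.u2 + a.u1 * a.u12 - a.u1 * a.u1 * a.u2⟩ := rfl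

instance : Group P := Group.ofLeftAxioms
  (fun a b c => by
    simp only [mul_def, P.mk.injEq]
    refine ⟨?_, ?_, ?_, ?_, ?_, ?_, ?_⟩ <;> ring)
  (fun a => by
    rw [one_def, mul_def]
    simp)
  (fun a => by
    rw [one_def, inv_def, mul_def]
    simp only [P.mk.injEq]
    refine ⟨?_, ?_, ?_, ?_, ?_, ?_, ?_⟩ <;> ring)

end P

/-- the homomorphism from the free group -/
def rho : FreeGroup (Fin 3) →* P :=
  FreeGroup.lift ![⟨1, 0, 0, 0, 0, 0, 0⟩, ⟨0, 1, 0, 0, 0, 0, 0⟩, ⟨0, 0, 1, 0, 0, 0, 0⟩]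

/-- endomorphisms -/
def theta (a c b : Fin 3 → ℤ) : P →* P where
  toFun w := ⟨w.u1, w.u2, w.u3, w.u11,
    w.u12 + w.u1 * a 0 + w.u2 * a 1 + w.u3 * a 2,
    w.u13 + w.u1 * c 0 + w.u2 * c 1 + w.u3 * c 2,
    w.u112 + w.u11 * a 0 + w.u12 * a 1 + w.u13 * a 2 + w.u1 * b 0 + w.u2 * b 1 + w.u3 * b 2⟩
  map_one' := by
    rw [P.one_def]
    simp
  map_mul' x y := by
    simp only [P.mul_def, P.mk.injEq]
    refine ⟨trivial, trivial, trivial, trivial, ?_, ?_, ?_⟩ <;> ring

/-- coordinates which are homomorphisms -/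
def cor (k : Fin 3) : P →* Multiplicative ℤ where
  toFun w := Multiplicative.ofAdd (![w.u1, w.u2, w.u3] k)
  map_one' := by
    fin_cases k <;> rfl
  map_mul' x y := by
    fin_cases k <;> rfl

lemma ab_eq {x y : FreeGroup (Fin 3)} (h : Abelianization.of x = Abelianization.of y)
    (k : Fin 3) : cor k (rho x) = cor k (rho y) := by
  have h1 := congrArg (Abelianization.lift ((cor k).comp rho)) h
  rw [Abelianization.lift_apply_of, Abelianization.lift_apply_of] at h1
  exact h1

lemma u1_eq {x y : FreeGroup (Fin 3)} (h : Abelianization.of x = Abelianization.of y) :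
    (rho x).u1 = (rho y).u1 := Multiplicative.ofAdd.injective (ab_eq h 0)

lemma u2_eq {x y : FreeGroup (Fin 3)} (h : Abelianization.of x = Abelianization.of y) :
    (rho x).u2 = (rho y).u2 := Multiplicative.ofAdd.injective (ab_eq h 1)

lemma u3_eq {x y : FreeGroup (Fin 3)} (h : Abelianization.of x = Abelianization.of y) :
    (rho x).u3 = (rho y).u3 := Multiplicative.ofAdd.injective (ab_eq h 2)

/-- the coefficient of `X₁X₁` -/
lemma u11_eq (x : FreeGroup (Fin 3)) : 2 * (rho x).u11 = (rho x).u1 * (rho x).u1 - (rho x).u1 := by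
  let K : Subgroup P :=
    { carrier := {w | 2 * w.u11 = w.u1 * w.u1 - w.u1}
      one_mem' := by
        change 2 * (0 : ℤ) = 0 * 0 - 0
        ring
      mul_mem' := fun {a b} ha hb => by
        change 2 * (a.u11 + b.u11 + a.u1 * b.u1) =
          (a.u1 + b.u1) * (a.u1 + b.u1) - (a.u1 + b.u1)
        have h1 : 2 * a.u11 = a.u1 * a.u1 - a.u1 := ha
        have h2 : 2 * b.u11 = b.u1 * b.u1 - b.u1 := hb
        linear_combination h1 + h2
      inv_mem' := fun {a} ha => by
        change 2 * (-a.u11 + a.u1 * a.u1) = -a.u1 * -a.u1 - -a.u1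
        have h1 : 2 * a.u11 = a.u1 * a.u1 - a.u1 := ha
        linear_combination -h1 }
  have h : ∀ x, rho x ∈ K := by
    intro x
    induction x using FreeGroup.induction_on with
    | C1 => rw [map_one]; exact K.one_mem
    | of i =>
      fin_cases i
      · change 2 * (0 : ℤ) = 1 * 1 - 1
        ring
      · change 2 * (0 : ℤ) = 0 * 0 - 0
        ring
      · change 2 * (0 : ℤ) = 0 * 0 - 0
        ring
    | inv_of i hi => rw [map_inv]; exact K.inv_mem hi
    | mul a b ha hb => rw [map_mul]; exact K.mul_mem ha hb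
  exact h x

lemma rho_of_zero : rho (FreeGroup.of 0) = ⟨1, 0, 0, 0, 0, 0, 0⟩ := rfl
lemma rho_of_one : rho (FreeGroup.of 1) = ⟨0, 1, 0, 0, 0, 0, 0⟩ := rfl
lemma rho_of_two : rho (FreeGroup.of 2) = ⟨0, 0, 1, 0, 0, 0, 0⟩ := rfl

/-- **an element of `IA_3` acts on the quotient `P`** -/
lemma rho_act {g : MulAut (FreeGroup (Fin 3))} (hg : g ∈ IA 3) (x : FreeGroup (Fin 3)) :
    rho (g x) = theta (fun i => (rho (g (FreeGroup.of i))).u12)
      (fun i => (rho (g (FreeGroup.of i))).u13) (fun i => (rho (g (FreeGroup.of i))).u112)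
      (rho x) := by
  set t := theta (fun i => (rho (g (FreeGroup.of i))).u12)
      (fun i => (rho (g (FreeGroup.of i))).u13) (fun i => (rho (g (FreeGroup.of i))).u112) with ht
  have h : rho.comp g.toMonoidHom = t.comp rho := by
    apply FreeGroup.ext_hom
    intro i
    change rho (g (FreeGroup.of i)) = t (rho (FreeGroup.of i))
    have e1 := u1_eq (hg (FreeGroup.of i))
    have e2 := u2_eq (hg (FreeGroup.of i))
    have e3 := u3_eq (hg (FreeGroup.of i))
    have e4 := u11_eq (g (FreeGroup.of i))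
    rw [e1] at e4
    fin_cases i
    · change (rho (g (FreeGroup.of 0))) = t (rho (FreeGroup.of 0))
      replace e1 : (rho (g (FreeGroup.of 0))).u1 = 1 := e1
      replace e2 : (rho (g (FreeGroup.of 0))).u2 = 0 := e2
      replace e3 : (rho (g (FreeGroup.of 0))).u3 = 0 := e3
      replace e4 : 2 * (rho (g (FreeGroup.of 0))).u11 = 1 * 1 - 1 := e4
      rw [rho_of_zero, ht]
      unfold theta
      ext
      · exact e1
      · exact e2
      · exact e3
      · change _ = (0 : ℤ)
        omega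
      · change _ = 0 + 1 * _ + 0 * _ + 0 * _
        ring
      · change _ = 0 + 1 * _ + 0 * _ + 0 * _
        ring
      · change _ = 0 + 0 * _ + 0 * _ + 0 * _ + 1 * _ + 0 * _ + 0 * _
        ring
    · change (rho (g (FreeGroup.of 1))) = t (rho (FreeGroup.of 1))
      replace e1 : (rho (g (FreeGroup.of 1))).u1 = 0 := e1
      replace e2 : (rho (g (FreeGroup.of 1))).u2 = 1 := e2
      replace e3 : (rho (g (FreeGroup.of 1))).u3 = 0 := e3
      replace e4 : 2 * (rho (g (FreeGroup.of 1))).u11 = 0 * 0 - 0 := e4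
      rw [rho_of_one, ht]
      unfold theta
      ext
      · exact e1
      · exact e2
      · exact e3
      · change _ = (0 : ℤ)
        omega
      · change _ = 0 + 0 * _ + 1 * _ + 0 * _
        ring
      · change _ = 0 + 0 * _ + 1 * _ + 0 * _
        ring
      · change _ = 0 + 0 * _ + 0 * _ + 0 * _ + 0 * _ + 1 * _ + 0 * _
        ring
    · change (rho (g (FreeGroup.of 2))) = t (rho (FreeGroup.of 2))
      replace e1 : (rho (g (FreeGroup.of 2))).u1 = 0 := e1
      replace e2 : (rho (g (FreeGroup.of 2))).u2 = 0 := e2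
      replace e3 : (rho (g (FreeGroup.of 2))).u3 = 1 := e3
      replace e4 : 2 * (rho (g (FreeGroup.of 2))).u11 = 0 * 0 - 0 := e4
      rw [rho_of_two, ht]
      unfold theta
      ext
      · exact e1
      · exact e2
      · exact e3
      · change _ = (0 : ℤ)
        omega
      · change _ = 0 + 0 * _ + 0 * _ + 1 * _
        ring
      · change _ = 0 + 0 * _ + 0 * _ + 1 * _
        ring
      · change _ = 0 + 0 * _ + 0 * _ + 0 * _ + 0 * _ + 0 * _ + 1 * _
        ring
  exact DFunLike.congr_fun h x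

end Pool.Agent.H297.QL
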