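import Pool.Agent.H297.QL.Nn

/-!
# The lower central series Lie ring of `IA_3` is not quadratic
-/

set_option autoImplicit false

open scoped commutatorElement

noncomputable section

namespace Pool.Agent.H297.QL

/-! ### Automorphisms `x₃ ↦ u x₃ v` -/

/-- the inclusion of the free group on `x₁, x₂` -/
def jj : FreeGroup (Fin 2) →* FreeGroup (Fin 3) :=
  FreeGroup.lift ![FreeGroup.of 0, FreeGroup.of 1]

/-- the endomorphism `x₃ ↦ u x₃ v` -/
def mv (u v : FreeGroup (Fin 2)) : FreeGroup (Fin 3) →* FreeGroup (Fin 3) :=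
  FreeGroup.lift ![FreeGroup.of 0, FreeGroup.of 1, jj u * FreeGroup.of 2 * jj v]

lemma mv_zero (u v : FreeGroup (Fin 2)) : mv u v (FreeGroup.of 0) = FreeGroup.of 0 := rfl
lemma mv_one (u v : FreeGroup (Fin 2)) : mv u v (FreeGroup.of 1) = FreeGroup.of 1 := rfl
lemma mv_two (u v : FreeGroup (Fin 2)) :
    mv u v (FreeGroup.of 2) = jj u * FreeGroup.of 2 * jj v := FreeGroup.lift_apply_of

lemma mv_jj (u v w : FreeGroup (Fin 2)) : mv u v (jj w) = jj w := by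
  have h : (mv u v).comp jj = jj := by
    apply FreeGroup.ext_hom
    intro i
    fin_cases i <;> rfl
  exact DFunLike.congr_fun h w

lemma mv_comp (u v u' v' : FreeGroup (Fin 2)) :
    (mv u v).comp (mv u' v') = mv (u' * u) (v * v') := by
  apply FreeGroup.ext_hom
  intro i
  fin_cases i
  · rfl
  · rfl
  · change mv u v (mv u' v' (FreeGroup.of 2)) = mv (u' * u) (v * v') (FreeGroup.of 2)
    rw [mv_two, mv_two, map_mul, map_mul, mv_jj, mv_jj, mv_two, map_mul, map_mul]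
    group

lemma mv_id : mv 1 1 = MonoidHom.id _ := by
  apply FreeGroup.ext_hom
  intro i
  fin_cases i
  · rfl
  · rfl
  · change mv 1 1 (FreeGroup.of 2) = FreeGroup.of 2
    rw [mv_two, map_one, one_mul, mul_one]

/-- the automorphism `x₃ ↦ u x₃ v` -/
def au (u v : FreeGroup (Fin 2)) : MulAut (FreeGroup (Fin 3)) :=
  MonoidHom.toMulEquiv (mv u v) (mv u⁻¹ v⁻¹)
    (by rw [mv_comp, mul_inv_cancel, inv_mul_cancel, mv_id])
    (by rw [mv_comp, inv_mul_cancel, mul_inv_cancel, mv_id])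

lemma au_apply (u v : FreeGroup (Fin 2)) (x : FreeGroup (Fin 3)) : au u v x = mv u v x := rfl

lemma au_mul (u v u' v' : FreeGroup (Fin 2)) : au u v * au u' v' = au (u' * u) (v * v') := by
  apply MulEquiv.ext
  intro x
  change mv u v (mv u' v' x) = mv (u' * u) (v * v') x
  rw [← mv_comp]
  rfl

lemma au_one : au 1 1 = 1 := by
  apply MulEquiv.ext
  intro x
  change mv 1 1 x = x
  rw [mv_id]
  rfl

lemma au_inv (u v : FreeGroup (Fin 2)) : (au u v)⁻¹ = au u⁻¹ v⁻¹ := by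
  rw [inv_eq_iff_mul_eq_one, au_mul, inv_mul_cancel, mul_inv_cancel, au_one]

lemma au_mem {u v : FreeGroup (Fin 2)}
    (h : Abelianization.of (jj u) * Abelianization.of (jj v) = 1) : au u v ∈ IA 3 := by
  apply mem_IA'
  intro i
  fin_cases i
  · rfl
  · rfl
  · change Abelianization.of (mv u v (FreeGroup.of 2)) = Abelianization.of (FreeGroup.of 2)
    rw [mv_two, map_mul, map_mul, mul_right_comm, h, one_mul]

/-- the commutator of `x₁` and `x₂` -/
def ww : FreeGroup (Fin 2) :=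
  ⁅(FreeGroup.of 0 : FreeGroup (Fin 2)), (FreeGroup.of 1 : FreeGroup (Fin 2))⁆

lemma of_ww : Abelianization.of (jj ww) = 1 := by
  unfold ww
  rw [map_commutatorElement, map_commutatorElement, commutatorElement_eq_one_iff_mul_comm,
    mul_comm]

/-- `x₃ ↦ [x₁,x₂] x₃` -/
def gL : IA 3 := ⟨au ww 1, au_mem (by rw [of_ww, map_one, map_one, one_mul])⟩

/-- `x₃ ↦ x₃ [x₁,x₂]` -/
def gR : IA 3 := ⟨au 1 ww, au_mem (by rw [of_ww, map_one, map_one, one_mul])⟩

/-- `x₃ ↦ u x₃ u⁻¹` -/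
def gC (u : FreeGroup (Fin 2)) : IA 3 := ⟨au u u⁻¹, au_mem (by
  rw [map_inv, map_inv, mul_inv_cancel])⟩

lemma gL_eq : gL = ⁅gC (FreeGroup.of 1)⁻¹, gC (FreeGroup.of 0)⁻¹⁆ * gR := by
  apply Subtype.ext
  rw [commutatorElement_def]
  change au ww 1 = au (FreeGroup.of 1)⁻¹ (FreeGroup.of 1)⁻¹⁻¹ *
    au (FreeGroup.of 0)⁻¹ (FreeGroup.of 0)⁻¹⁻¹ * (au (FreeGroup.of 1)⁻¹ (FreeGroup.of 1)⁻¹⁻¹)⁻¹ *
      (au (FreeGroup.of 0)⁻¹ (FreeGroup.of 0)⁻¹⁻¹)⁻¹ * au 1 ww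
  rw [au_inv, au_inv, au_mul, au_mul, au_mul, au_mul]
  unfold ww
  rw [commutatorElement_def]
  congr 1
  group

/-- **the cubic relation** -/
lemma rel_group : ⁅gL, ⁅gC (FreeGroup.of 0), gR⁆⁆ = 1 := by
  rw [commutatorElement_eq_one_iff_mul_comm]
  apply Subtype.ext
  rw [commutatorElement_def]
  change au ww 1 * (au (FreeGroup.of 0) (FreeGroup.of 0)⁻¹ * au 1 ww *
    (au (FreeGroup.of 0) (FreeGroup.of 0)⁻¹)⁻¹ * (au 1 ww)⁻¹) =
      (au (FreeGroup.of 0) (FreeGroup.of 0)⁻¹ * au 1 ww *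
    (au (FreeGroup.of 0) (FreeGroup.of 0)⁻¹)⁻¹ * (au 1 ww)⁻¹) * au ww 1
  rw [au_inv, au_inv, au_mul, au_mul, au_mul, au_mul, au_mul]
  congr 1
  group

/-- the class of `x₃ ↦ [x₁,x₂] x₃` -/
def el : Gr (IA 3) 1 := cl 1 gL (one_mem_gam _)

/-- the class of `x₃ ↦ x₁ x₃ x₁⁻¹` -/
def ec : Gr (IA 3) 1 := cl 1 (gC (FreeGroup.of 0)) (one_mem_gam _)

lemma el_eq : el = cl 1 gR (one_mem_gam _) := by
  unfold el
  have h1 : ⁅gC (FreeGroup.of 1)⁻¹, gC (FreeGroup.of 0)⁻¹⁆ ∈ gam (IA 3) 2 :=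
    comm_mem (one_mem_gam _) (one_mem_gam _)
  rw [cl_congr gL_eq (one_mem_gam _) (one_mem_gam _),
    ← cl_add (gam_succ_le 1 h1) (one_mem_gam _), cl_zero h1, zero_add]

/-- **the cubic relation in `E_0^3(IA_3)`** -/
lemma rel_gr : (⁅comp 1 el, ⁅comp 1 ec, comp 1 el⁆⁆ : E (IA 3)) = 0 := by
  have h1 : (comp 1 el : E (IA 3)) = hc 1 gL (one_mem_gam _) := rfl
  have h2 : (comp 1 ec : E (IA 3)) = hc 1 (gC (FreeGroup.of 0)) (one_mem_gam _) := rfl
  have h3 : (comp 1 el : E (IA 3)) = hc 1 gR (one_mem_gam _) := by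
    rw [el_eq]
    rfl
  have h4 : (⁅comp 1 el, ⁅comp 1 ec, comp 1 el⁆⁆ : E (IA 3)) =
      ⁅hc 1 gL (one_mem_gam _), ⁅hc 1 (gC (FreeGroup.of 0)) (one_mem_gam _),
        hc 1 gR (one_mem_gam _)⁆⁆ := by
    rw [← h1, ← h2, ← h3]
  rw [h4, lie_hc, lie_hc]
  exact hc_zero _ (by rw [rel_group]; exact Subgroup.one_mem _)

lemma phi_el : phi el = ⟨1, 0, 0, 0⟩ := by
  change (⟨(Th gL).l, (Th gL).b - (Th gL).a, 0, 0⟩ : M) = _
  have h : Th gL = ⟨0, 0, 1, (Th gL).e⟩ := by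
    ext
    · rfl
    · rfl
    · rfl
    · rfl
  rw [h]
  rfl

lemma phi_ec : phi ec = ⟨0, 1, 0, 0⟩ := by
  change (⟨(Th (gC (FreeGroup.of 0))).l, (Th (gC (FreeGroup.of 0))).b -
    (Th (gC (FreeGroup.of 0))).a, 0, 0⟩ : M) = _
  have h : Th (gC (FreeGroup.of 0)) = ⟨0, 1, 0, (Th (gC (FreeGroup.of 0))).e⟩ := by
    ext
    · rfl
    · rfl
    · rfl
    · rfl
  rw [h]
  rfl

/-! ### The main theorem -/

lemma mem_Lk_one {V : Type} [AddCommGroup V] {x : LV V} (hx : x ∈ Lk V 1) : ∃ v, x = inc v := by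
  have hx' : x ∈ AddSubgroup.closure (Set.range (inc : V → LV V)) := hx
  clear hx
  induction hx' using AddSubgroup.closure_induction with
  | mem x h =>
    obtain ⟨v, rfl⟩ := h
    exact ⟨v, rfl⟩
  | zero =>
    refine ⟨0, ?_⟩
    have h := inc_add (0 : V) 0
    rw [add_zero] at h
    exact (left_eq_add.mp h).symm
  | add x y _ _ h1 h2 =>
    obtain ⟨v, rfl⟩ := h1
    obtain ⟨w, rfl⟩ := h2
    exact ⟨v + w, (inc_add v w).symm⟩
  | neg x _ h1 =>
    obtain ⟨v, rfl⟩ := h1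
    exact ⟨-v, (map_neg (AddMonoidHom.mk' (inc : V → LV V) inc_add) v).symm⟩

/-- a cubic relation which is not a consequence of quadratic ones -/
theorem key (h : LV (Gr (IA 3) 1) →ₗ⁅ℤ⁆ E (IA 3)) (t : Gr (IA 3) 1 →+ Gr (IA 3) 1)
    (ht : Function.Surjective t) (hh : ∀ v, h (inc v) = comp 1 (t v))
    (S : Set (LV (Gr (IA 3) 1))) (hS : S ⊆ Lk (Gr (IA 3) 1) 2) (hS' : ∀ s ∈ S, h s = 0) :
    ∃ x, h x = 0 ∧ x ∉ idl S := by
  let psi : LV (Gr (IA 3) 1) →ₗ⁅ℤ⁆ M := lift (phi.comp t)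
  have hpsi : ∀ v, psi (inc v) = phi (t v) := fun v => lift_inc _ v
  have h2 : ∀ x ∈ Lk (Gr (IA 3) 1) 2, ∃ a : Gr (IA 3) 2, h x = comp 2 a ∧ psi x = phi2 a := by
    intro x hx
    have hx' : x ∈ AddSubgroup.closure {x : LV (Gr (IA 3) 1) | ∃ v : Gr (IA 3) 1,
      ∃ y ∈ Lk (Gr (IA 3) 1) 1, x = ⁅inc v, y⁆} := hx
    clear hx
    induction hx' using AddSubgroup.closure_induction with
    | mem x hx =>
      obtain ⟨v, y, hy, rfl⟩ := hx
      obtain ⟨w, rfl⟩ := mem_Lk_one hy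
      refine ⟨gbr (t v) (t w), ?_, ?_⟩
      · rw [LieHom.map_lie, hh, hh, lie_def, brE_comp]
      · rw [LieHom.map_lie, hpsi, hpsi, phi_lie]
    | zero => exact ⟨0, by rw [map_zero, map_zero], by rw [map_zero, map_zero]⟩
    | add x y _ _ h1 h2 =>
      obtain ⟨a, ha1, ha2⟩ := h1
      obtain ⟨b, hb1, hb2⟩ := h2
      exact ⟨a + b, by rw [map_add, map_add, ha1, hb1], by rw [map_add, map_add, ha2, hb2]⟩
    | neg x _ h1 =>
      obtain ⟨a, ha1, ha2⟩ := h1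
      exact ⟨-a, by rw [map_neg, map_neg, ha1], by rw [map_neg, map_neg, ha2]⟩
  have h3 : ∀ s ∈ S, psi s = 0 := by
    intro s hs
    obtain ⟨a, ha1, ha2⟩ := h2 s (hS hs)
    rw [hS' s hs] at ha1
    have ha : a = 0 := by
      have := DirectSum.of_injective (β := Gr (IA 3)) 2 (a₁ := 0) (a₂ := a) (by
        rw [map_zero]
        exact ha1)
      exact this.symm
    rw [ha2, ha, map_zero]
  have h4 : idl S ≤ kerI psi (map_zero _) (map_add _) (LieHom.map_lie _) := by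
    refine LieSubmodule.lieSpan_le.2 ?_
    intro s hs
    exact h3 s hs
  obtain ⟨vl, hl⟩ := ht el
  obtain ⟨vc, hc⟩ := ht ec
  refine ⟨⁅inc vl, ⁅inc vc, inc vl⁆⁆, ?_, ?_⟩
  · rw [LieHom.map_lie, LieHom.map_lie, hh, hh, hl, hc, rel_gr]
  · intro hx
    have h5 : psi ⁅inc vl, ⁅inc vc, inc vl⁆⁆ = 0 := h4 hx
    rw [LieHom.map_lie, LieHom.map_lie, hpsi, hpsi, hl, hc, phi_el, phi_ec] at h5
    have h6 := congrArg M.e h5
    rw [M.brk_def, M.brk_def, M.zero_def] at h6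
    simp at h6

/-- the kernel of the natural homomorphism is not generated by elements of degree two -/
theorem ker_nat (S : Set (LV (Gr (IA 3) 1))) (hS : S ⊆ Lk (Gr (IA 3) 1) 2) :
    (nat (IA 3)).ker ≠ idl S := by
  intro h
  obtain ⟨x, h1, h2⟩ := key (nat (IA 3)) (AddMonoidHom.id _) (fun v => ⟨v, rfl⟩)
    (fun v => nat_inc v) S hS (fun s hs => by
      have h3 : s ∈ (nat (IA 3)).ker := by
        rw [h]
        exact LieSubmodule.subset_lieSpan hs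
      exact h3)
  apply h2
  rw [← h]
  exact h1

theorem not_quadratic : ¬ IsQuadratic (IA 3) := by
  rintro ⟨S, hS, f, hlie, hf⟩
  -- the map in degree one
  have h1 : ∀ v : Gr (IA 3) 1, ∃ a : Gr (IA 3) 1, f (toQ S (inc v)) = comp 1 a := fun v =>
    (hf 1 _).1 ⟨inc v, AddSubgroup.subset_closure ⟨v, rfl⟩, rfl⟩
  choose t ht using h1
  have hq : ∀ x y, toQ S (x + y) = toQ S x + toQ S y := fun x y => rfl
  have hinj : Function.Injective (comp 1 : Gr (IA 3) 1 →+ E (IA 3)) :=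
    DirectSum.of_injective (β := Gr (IA 3)) 1
  have hadd : ∀ v w, t (v + w) = t v + t w := by
    intro v w
    apply hinj
    rw [map_add, ← ht, ← ht, ← ht, ← map_add, inc_add, hq]
  have hsurj : Function.Surjective t := by
    intro a
    obtain ⟨x, hx⟩ := f.surjective (comp 1 a)
    obtain ⟨y, hy, rfl⟩ := (hf 1 x).2 ⟨a, hx⟩
    obtain ⟨v, rfl⟩ := mem_Lk_one hy
    refine ⟨v, ?_⟩
    apply hinj
    exact (ht v).symm.trans hx
  -- the homomorphism
  let h : LV (Gr (IA 3) 1) →ₗ⁅ℤ⁆ E (IA 3) :=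
    { toFun := fun x => f (toQ S x)
      map_add' := fun x y => map_add f (toQ S x) (toQ S y)
      map_smul' := fun n x => map_zsmul (AddMonoidHom.mk' (fun x : LV (Gr (IA 3) 1) =>
        f (toQ S x)) (fun x y => map_add f (toQ S x) (toQ S y))) n x
      map_lie' := fun {x y} => hlie (toQ S x) (toQ S y) }
  have hmk : ∀ x, h x = 0 → x ∈ idl S := by
    intro x hx
    have h2 : f (toQ S x) = f 0 := by
      rw [map_zero]
      exact hx
    exact (LieSubmodule.Quotient.mk_eq_zero').1 (f.injective h2)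
  obtain ⟨x, h2, h3⟩ := key h (AddMonoidHom.mk' t hadd) hsurj ht S hS (fun s hs => by
    have h4 : toQ S s = 0 :=
      (LieSubmodule.Quotient.mk_eq_zero' (N := idl S)).2 (LieSubmodule.subset_lieSpan hs)
    change f (toQ S s) = 0
    rw [h4, map_zero])
  exact h3 (hmk x h2)

end Pool.Agent.H297.QL
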