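import Pool.Agent.H297.QL.Ia

/-!
# A homomorphism from `IA_3` to a nilpotent group of class two
-/

set_option autoImplicit false

open scoped commutatorElement

noncomputable section

namespace Pool.Agent.H297.QL

/-- a nilpotent group of class two -/
@[ext] structure N where
  /-- first coordinate -/
  a : ℤ
  /-- second coordinate -/
  b : ℤ
  /-- third coordinate -/
  l : ℤ
  /-- central coordinate -/
  e : ℤ

namespace N

instance : Mul N := ⟨fun x y => ⟨x.a + y.a, x.b + y.b, x.l + y.l,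
  x.e + y.e + x.a * y.l + x.l * y.b⟩⟩

instance : One N := ⟨⟨0, 0, 0, 0⟩⟩

instance : Inv N := ⟨fun x => ⟨-x.a, -x.b, -x.l, -x.e + x.a * x.l + x.l * x.b⟩⟩

lemma mul_def (x y : N) : x * y = ⟨x.a + y.a, x.b + y.b, x.l + y.l,
  x.e + y.e + x.a * y.l + x.l * y.b⟩ := rfl

lemma one_def : (1 : N) = ⟨0, 0, 0, 0⟩ := rfl

lemma inv_def (x : N) : x⁻¹ = ⟨-x.a, -x.b, -x.l, -x.e + x.a * x.l + x.l * x.b⟩ := rfl

instance : Group N := Group.ofLeftAxioms
  (fun a b c => by
    simp only [mul_def, N.mk.injEq]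
    refine ⟨?_, ?_, ?_, ?_⟩ <;> ring)
  (fun a => by
    rw [one_def, mul_def]
    simp)
  (fun a => by
    rw [one_def, inv_def, mul_def]
    simp only [N.mk.injEq]
    refine ⟨?_, ?_, ?_, ?_⟩ <;> ring)

lemma comm_def (x y : N) : ⁅x, y⁆ = ⟨0, 0, 0, x.l * (y.b - y.a) - y.l * (x.b - x.a)⟩ := by
  rw [commutatorElement_def]
  simp only [mul_def, inv_def, N.mk.injEq]
  refine ⟨?_, ?_, ?_, ?_⟩ <;> ring

lemma gam_two {x : N} (hx : x ∈ gam N 2) : x.a = 0 ∧ x.b = 0 ∧ x.l = 0 := by
  let K : Subgroup N :=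
    { carrier := {x | x.a = 0 ∧ x.b = 0 ∧ x.l = 0}
      one_mem' := ⟨rfl, rfl, rfl⟩
      mul_mem' := fun {x y} hx hy => by
        obtain ⟨h1, h2, h3⟩ := hx
        obtain ⟨h4, h5, h6⟩ := hy
        rw [mul_def]
        refine ⟨?_, ?_, ?_⟩
        · change x.a + y.a = 0
          rw [h1, h4, add_zero]
        · change x.b + y.b = 0
          rw [h2, h5, add_zero]
        · change x.l + y.l = 0
          rw [h3, h6, add_zero]
      inv_mem' := fun {x} hx => by
        obtain ⟨h1, h2, h3⟩ := hx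
        rw [inv_def]
        refine ⟨?_, ?_, ?_⟩
        · change -x.a = 0
          rw [h1, neg_zero]
        · change -x.b = 0
          rw [h2, neg_zero]
        · change -x.l = 0
          rw [h3, neg_zero] }
  have h : gam N 2 ≤ K := by
    change ⁅gam N 1, (⊤ : Subgroup N)⁆ ≤ K
    rw [Subgroup.commutator_le]
    intro x _ y _
    rw [comm_def]
    exact ⟨rfl, rfl, rfl⟩
  exact h hx

lemma gam_three {x : N} (hx : x ∈ gam N 3) : x = 1 := by
  have h : gam N 3 ≤ ⊥ := by
    change ⁅gam N 2, (⊤ : Subgroup N)⁆ ≤ ⊥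
    rw [Subgroup.commutator_le]
    intro x hx y _
    obtain ⟨h1, h2, h3⟩ := gam_two hx
    rw [Subgroup.mem_bot, comm_def, h1, h2, h3, one_def]
    simp
  exact h hx

end N

/-- homomorphisms preserve the lower central series -/
lemma map_gam {G H : Type} [Group G] [Group H] (f : G →* H) (k : ℕ) {x : G} (hx : x ∈ gam G k) :
    f x ∈ gam H k := by
  have h : ∀ k, gam G k ≤ (gam H k).comap f := by
    intro k
    induction k with
    | zero => exact fun x _ => Subgroup.mem_top _
    | succ k ih =>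
      rcases k with _ | k
      · exact fun x _ => Subgroup.mem_top _
      · rw [gam_add_two, Subgroup.commutator_le]
        intro x hx y _
        rw [Subgroup.mem_comap, map_commutatorElement]
        exact comm_succ (ih hx) (f y)
  exact h k hx

/-- **the homomorphism from `IA_3`** -/
def Th : IA 3 →* N where
  toFun g := ⟨(rho (g.1 (FreeGroup.of 1))).u12, (rho (g.1 (FreeGroup.of 2))).u13,
    (rho (g.1 (FreeGroup.of 2))).u12, (rho (g.1 (FreeGroup.of 2))).u112⟩
  map_one' := rfl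
  map_mul' g h := by
    have e0 : ∀ x, ((g * h : IA 3) : MulAut (FreeGroup (Fin 3))) x = g.1 (h.1 x) := fun x => rfl
    rw [e0, e0, rho_act g.2, rho_act g.2, N.mul_def]
    have a1 := u1_eq (h.2 (FreeGroup.of 1))
    have a2 := u2_eq (h.2 (FreeGroup.of 1))
    have a3 := u3_eq (h.2 (FreeGroup.of 1))
    have b1 := u1_eq (h.2 (FreeGroup.of 2))
    have b2 := u2_eq (h.2 (FreeGroup.of 2))
    have b3 := u3_eq (h.2 (FreeGroup.of 2))
    have b4 := u11_eq (h.1 (FreeGroup.of 2))
    rw [b1] at b4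
    replace a1 : (rho (h.1 (FreeGroup.of 1))).u1 = 0 := a1
    replace a2 : (rho (h.1 (FreeGroup.of 1))).u2 = 1 := a2
    replace a3 : (rho (h.1 (FreeGroup.of 1))).u3 = 0 := a3
    replace b1 : (rho (h.1 (FreeGroup.of 2))).u1 = 0 := b1
    replace b2 : (rho (h.1 (FreeGroup.of 2))).u2 = 0 := b2
    replace b3 : (rho (h.1 (FreeGroup.of 2))).u3 = 1 := b3
    replace b4 : 2 * (rho (h.1 (FreeGroup.of 2))).u11 = 0 * 0 - 0 := b4
    replace b4 : (rho (h.1 (FreeGroup.of 2))).u11 = 0 := by omega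
    unfold theta
    simp only [MonoidHom.coe_mk, OneHom.coe_mk, N.mk.injEq]
    rw [a1, a2, a3, b1, b2, b3, b4]
    refine ⟨?_, ?_, ?_, ?_⟩ <;> ring

/-- a homomorphism `G → H` on the homogeneous components of degree one -/
lemma one_mem_gam {G : Type} [Group G] (g : G) : g ∈ gam G 1 := Subgroup.mem_top g

/-- an additive function on `E_0^1` -/
def grOne (f : IA 3 →* Multiplicative ℤ) : Gr (IA 3) 1 →+ ℤ :=
  AddMonoidHom.mk' (fun a => Multiplicative.toAdd
    (QuotientGroup.lift ((gam (IA 3) 2).subgroupOf (gam (IA 3) 1))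
      (f.comp (gam (IA 3) 1).subtype) (by
        intro x hx
        rw [Subgroup.mem_subgroupOf] at hx
        have h1 := map_gam f 2 hx
        have h2 : gam (Multiplicative ℤ) 2 ≤ ⊥ := by
          change ⁅gam (Multiplicative ℤ) 1, (⊤ : Subgroup (Multiplicative ℤ))⁆ ≤ ⊥
          rw [Subgroup.commutator_le]
          intro x _ y _
          rw [Subgroup.mem_bot, commutatorElement_eq_one_iff_mul_comm, mul_comm]
        exact h2 h1) (Additive.toMul a)))
    (fun a b => by
      rw [← toAdd_mul]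
      congr 1
      exact map_mul _ _ _)

lemma grOne_cl (f : IA 3 →* Multiplicative ℤ) (g : IA 3) :
    grOne f (cl 1 g (one_mem_gam g)) = Multiplicative.toAdd (f g) := rfl

/-- the first linear form -/
def lam : Gr (IA 3) 1 →+ ℤ := grOne
  { toFun := fun g => Multiplicative.ofAdd (Th g).l
    map_one' := rfl
    map_mul' := fun g h => by
      rw [map_mul]
      rfl }

/-- the second linear form -/
def gma : Gr (IA 3) 1 →+ ℤ := grOne
  { toFun := fun g => Multiplicative.ofAdd ((Th g).b - (Th g).a)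
    map_one' := rfl
    map_mul' := fun g h => by
      rw [map_mul, ← ofAdd_add]
      congr 1
      change (Th g).b + (Th h).b - ((Th g).a + (Th h).a) = _
      ring }

lemma lam_cl (g : IA 3) : lam (cl 1 g (one_mem_gam g)) = (Th g).l := rfl

lemma gma_cl (g : IA 3) : gma (cl 1 g (one_mem_gam g)) = (Th g).b - (Th g).a := rfl

/-- the linear form on `E_0^2` -/
def del : Gr (IA 3) 2 →+ ℤ :=
  AddMonoidHom.mk' (fun a => Multiplicative.toAdd
    (QuotientGroup.lift ((gam (IA 3) 3).subgroupOf (gam (IA 3) 2))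
      ({ toFun := fun z => Multiplicative.ofAdd (Th z.1).e
         map_one' := rfl
         map_mul' := fun z w => by
          have h1 := N.gam_two (map_gam Th 2 z.2)
          rw [Subgroup.coe_mul, map_mul, ← ofAdd_add]
          congr 1
          change (Th z.1).e + (Th w.1).e + (Th z.1).a * (Th w.1).l + (Th z.1).l * (Th w.1).b = _
          rw [h1.1, h1.2.2]
          ring } : gam (IA 3) 2 →* Multiplicative ℤ) (by
        intro x hx
        rw [Subgroup.mem_subgroupOf] at hx
        have h1 := N.gam_three (map_gam Th 3 hx)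
        change Multiplicative.ofAdd (Th x.1).e = 1
        rw [h1]
        rfl) (Additive.toMul a)))
    (fun a b => by
      rw [← toAdd_mul]
      congr 1
      exact map_mul _ _ _)

lemma del_cl {g : IA 3} (hg : g ∈ gam (IA 3) 2) : del (cl 2 g hg) = (Th g).e := rfl

/-- **the form `del` on brackets** -/
lemma del_gbr (v w : Gr (IA 3) 1) :
    del (gbr v w) = lam v * gma w - lam w * gma v := by
  obtain ⟨g, hg, rfl⟩ := exists_cl v
  obtain ⟨h, hh, rfl⟩ := exists_cl w
  have e1 : gbr (cl 1 g hg) (cl 1 h hh) = cl 2 ⁅g, h⁆ (comm_mem hg hh) := gbr_cl hg hh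
  have e2 : lam (cl 1 g hg) = (Th g).l := rfl
  have e3 : lam (cl 1 h hh) = (Th h).l := rfl
  have e4 : gma (cl 1 g hg) = (Th g).b - (Th g).a := rfl
  have e5 : gma (cl 1 h hh) = (Th h).b - (Th h).a := rfl
  rw [e1, del_cl, e2, e3, e4, e5, map_commutatorElement, N.comm_def]

/-! ### The target Lie ring -/

/-- a Lie ring of class three -/
@[ext] structure M where
  /-- coordinate of degree one -/
  l : ℤ
  /-- coordinate of degree one -/
  g : ℤ
  /-- coordinate of degree two -/
  d : ℤ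
  /-- coordinate of degree three -/
  e : ℤ

namespace M

instance : Zero M := ⟨⟨0, 0, 0, 0⟩⟩
instance : Add M := ⟨fun x y => ⟨x.l + y.l, x.g + y.g, x.d + y.d, x.e + y.e⟩⟩
instance : Neg M := ⟨fun x => ⟨-x.l, -x.g, -x.d, -x.e⟩⟩

lemma zero_def : (0 : M) = ⟨0, 0, 0, 0⟩ := rfl
lemma add_def (x y : M) : x + y = ⟨x.l + y.l, x.g + y.g, x.d + y.d, x.e + y.e⟩ := rfl
lemma neg_def (x : M) : -x = ⟨-x.l, -x.g, -x.d, -x.e⟩ := rfl

instance : AddGroup M := AddGroup.ofLeftAxioms
  (fun a b c => by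
    simp only [add_def, M.mk.injEq]
    refine ⟨?_, ?_, ?_, ?_⟩ <;> ring)
  (fun a => by
    rw [zero_def, add_def]
    simp)
  (fun a => by
    rw [zero_def, neg_def, add_def]
    simp only [M.mk.injEq]
    refine ⟨?_, ?_, ?_, ?_⟩ <;> ring)

instance : AddCommGroup M where
  add_comm a b := by
    simp only [add_def, M.mk.injEq]
    refine ⟨?_, ?_, ?_, ?_⟩ <;> ring

instance : Bracket M M := ⟨fun x y => ⟨0, 0, x.l * y.g - x.g * y.l, x.l * y.d - x.d * y.l⟩⟩

lemma brk_def (x y : M) : ⁅x, y⁆ = ⟨0, 0, x.l * y.g - x.g * y.l, x.l * y.d - x.d * y.l⟩ := rfl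

instance : LieRing M where
  add_lie x y z := by
    simp only [add_def, brk_def, M.mk.injEq]
    refine ⟨?_, ?_, ?_, ?_⟩ <;> ring
  lie_add x y z := by
    simp only [add_def, brk_def, M.mk.injEq]
    refine ⟨?_, ?_, ?_, ?_⟩ <;> ring
  lie_self x := by
    simp only [zero_def, brk_def, M.mk.injEq]
    refine ⟨trivial, trivial, ?_, ?_⟩ <;> ring
  leibniz_lie x y z := by
    simp only [add_def, brk_def, M.mk.injEq]
    refine ⟨?_, ?_, ?_, ?_⟩ <;> ring

end M

/-- the additive map from `E_0^1(IA_3)` -/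
def phi : Gr (IA 3) 1 →+ M := AddMonoidHom.mk' (fun v => ⟨lam v, gma v, 0, 0⟩) (fun v w => by
  rw [M.add_def, map_add, map_add]
  simp)

/-- the additive map from `E_0^2(IA_3)` -/
def phi2 : Gr (IA 3) 2 →+ M := AddMonoidHom.mk' (fun v => ⟨0, 0, del v, 0⟩) (fun v w => by
  rw [M.add_def, map_add]
  simp)

lemma phi_lie (v w : Gr (IA 3) 1) : ⁅phi v, phi w⁆ = phi2 (gbr v w) := by
  change ⁅(⟨lam v, gma v, 0, 0⟩ : M), (⟨lam w, gma w, 0, 0⟩ : M)⁆ = ⟨0, 0, del (gbr v w), 0⟩
  rw [M.brk_def, del_gbr]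
  simp only [M.mk.injEq]
  refine ⟨trivial, trivial, ?_, ?_⟩ <;> ring

end Pool.Agent.H297.QL
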